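import Pool.Agent.PCS.Stmts

/-!
Squad PCS, row COV: the covering argument.
-/

namespace Pool.Agent.PCS.H52

open Pool.Agent.H50.CIG
open Filter

theorem cov (hint : IntStmt) : CovStmt := by
  intro Γ _ hinf hnci H hH E V π L hn U hU
  -- the claim
  have claim : ∃ M ∈ U, ∃ F : Set Γ, F.Finite ∧ (∀ h ∈ F, h ∈ H ∧ h ∉ fc Γ) ∧
      ∀ e, π e ∈ M → ∃ h ∈ F, h ∈ L e := by
    by_contra hcon
    push Not at hcon
    let I : Type := {h : Γ // h ∈ H ∧ h ∉ fc Γ}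
    let c : I → Set E := fun h => {e | (h : Γ) ∉ L e}
    have hb := ((U : Filter V).basis_sets.comap π).inf (hasBasis_iInf_principal_finite c)
    have hne : (comap π (U : Filter V) ⊓ ⨅ i, 𝓟 (c i)).NeBot := by
      rw [hb.neBot_iff]
      rintro ⟨M, t⟩ ⟨hM, ht⟩
      obtain ⟨e, he, hF⟩ := hcon M hM ((fun h : I => (h : Γ)) '' t) (ht.image _) (by
        rintro _ ⟨h, _, rfl⟩
        exact h.2)
      refine ⟨e, he, ?_⟩
      show e ∈ ⋂ i ∈ t, c i
      rw [Set.mem_iInter₂]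
      intro i hi
      exact hF _ ⟨i, hi, rfl⟩
    obtain ⟨E', hE'⟩ := Ultrafilter.exists_le (comap π (U : Filter V) ⊓ ⨅ i, 𝓟 (c i))
    have hE1 : (E' : Filter E) ≤ comap π (U : Filter V) := hE'.trans inf_le_left
    have hE2 : ∀ i : I, c i ∈ E' := by
      intro i
      have h1 : (E' : Filter E) ≤ 𝓟 (c i) := (hE'.trans inf_le_right).trans (iInf_le _ i)
      exact h1 (mem_principal_self _)
    have hmap : E'.map π = U := by
      apply Ultrafilter.coe_le_coe.mp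
      rw [Ultrafilter.coe_map]
      exact (map_mono hE1).trans map_comap_le
    obtain ⟨h, ⟨hh1, hh2⟩, hh3⟩ := (hU E' hmap).exists_notMem_finite (fc_finite hnci)
    have h4 := hE2 ⟨h, hh1, hh3⟩
    have h5 : ∀ᶠ e in (E' : Filter E), e ∈ c ⟨h, hh1, hh3⟩ := h4
    obtain ⟨e, he1, he2⟩ := (hh2.and h5).exists
    exact he2 he1
  obtain ⟨M, hM, F, hF, hFH, hcov⟩ := claim
  have : Finite F := hF
  let P : F → Subgroup Γ := fun i =>
    { carrier := {g | g ∈ H ∧ ∀ e, π e ∈ M → (i : Γ) ∈ L e → g ∈ L e}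
      one_mem' := ⟨H.one_mem, fun e _ _ => (L e).one_mem⟩
      mul_mem' := by
        rintro a b ⟨ha1, ha2⟩ ⟨hb1, hb2⟩
        exact ⟨H.mul_mem ha1 hb1, fun e h1 h2 => (L e).mul_mem (ha2 e h1 h2) (hb2 e h1 h2)⟩
      inv_mem' := by
        rintro a ⟨ha1, ha2⟩
        exact ⟨H.inv_mem ha1, fun e h1 h2 => (L e).inv_mem (ha2 e h1 h2)⟩ }
  have hPn : ∀ i, ∀ h ∈ H, ∀ k ∈ P i, h * k * h⁻¹ ∈ P i := by
    rintro i h hh k ⟨hk1, hk2⟩
    exact ⟨H.mul_mem (H.mul_mem hh hk1) (H.inv_mem hh), fun e h1 h2 => hn e h hh k (hk2 e h1 h2)⟩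
  have hPi : ∀ i, (P i : Set Γ).Infinite := by
    intro i hfin
    have := hH
    have h1 := le_fc H (P i) hfin (hPn i)
    have h2 : (i : Γ) ∈ P i := ⟨(hFH i i.2).1, fun e _ h => h⟩
    exact (hFH i i.2).2 (h1 h2)
  have hmain := hint Γ hinf hnci H hH F P hPi hPn
  refine hmain.mono ?_
  rintro g ⟨hg1, hg2⟩
  refine ⟨hg1, ?_⟩
  filter_upwards [hM] with v hv e he
  obtain ⟨h, hhF, hhL⟩ := hcov e (by rw [he]; exact hv)
  exact (hg2 ⟨h, hhF⟩).2 e (by rw [he]; exact hv) hhL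

end Pool.Agent.PCS.H52
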